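import Pool.Agent.H.MP_1b807b_an.G.Main

/-!
In every dimension the ball is the unique maximiser of the first Robin eigenvalue among all domains
of given volume when the negative boundary parameter is small.
-/

set_option autoImplicit false

namespace Pool.Agent.H.MP_1b807b_an.Old.SmallParameter

open MeasureTheory Metric Set
open Pool.Agent.RG

/-- Let `n ≥ 2`, `R > 0` and `-1/(12nR) ≤ α < 0`, and let `B` be the ball of radius `R` in `ℝⁿ`.
Then `λ₁(B; α)` is a real number and every domain `D` with `|D| = |B|` satisfies `P(B) ≤ P(D)` and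
`λ₁(D; α) ≤ λ₁(B; α) - (|α| / 2) (P(D) - P(B)) / |D|`; if `λ₁(D; α) ≥ λ₁(B; α)` then `D` is a ball
of radius `R` up to a null set, and it is a ball if it is the interior of its closure (as every
Lipschitz domain is). -/
theorem result (n : ℕ) (hn : 2 ≤ n) (R : ℝ) (hR : 0 < R) (α : ℝ)
    (h1 : -(1 / (12 * n * R)) ≤ α) (h2 : α < 0) :
    (∃ r : ℝ, (ballDomain n (by omega) R hR).robin α = (r : EReal)) ∧
    ∀ D : Domain n, volume D.carrier = volume (ball (0 : E n) R) →
      (ballDomain n (by omega) R hR).perimeter ≤ D.perimeter ∧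
      D.robin α ≤ (ballDomain n (by omega) R hR).robin α +
        ((α / 2 * ((D.perimeter - (ballDomain n (by omega) R hR).perimeter) /
          volume.real D.carrier) : ℝ) : EReal) ∧
      ((ballDomain n (by omega) R hR).robin α ≤ D.robin α →
        ∃ x₀ : E n, D.carrier ⊆ ball x₀ R ∧ volume (ball x₀ R \ D.carrier) = 0 ∧
          (interior (closure D.carrier) = D.carrier → D.carrier = ball x₀ R)) := by
  refine ⟨robin_ball_real (by omega) hR h2, fun D hv => ?_⟩
  obtain ⟨hP, hmain, heq⟩ := main hn hR h1 h2 D hv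
  refine ⟨hP, hmain, fun hge => ?_⟩
  obtain ⟨x₀, hsub, hnull⟩ := heq hge
  refine ⟨x₀, hsub, hnull, fun hic => subset_antisymm hsub ?_⟩
  rw [← hic]
  refine interior_maximal ?_ isOpen_ball
  intro x hx
  by_contra hxc
  have hopen : IsOpen (ball x₀ R ∩ (closure D.carrier)ᶜ) :=
    isOpen_ball.inter isClosed_closure.isOpen_compl
  have hpos : 0 < volume (ball x₀ R ∩ (closure D.carrier)ᶜ) :=
    hopen.measure_pos volume ⟨x, hx, hxc⟩
  have hle : volume (ball x₀ R ∩ (closure D.carrier)ᶜ) ≤ volume (ball x₀ R \ D.carrier) :=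
    measure_mono fun y hy => ⟨hy.1, fun h => hy.2 (subset_closure h)⟩
  rw [hnull] at hle
  exact absurd hle (not_le.2 hpos)

end Pool.Agent.H.MP_1b807b_an.Old.SmallParameter
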