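import Pool.Agent.H.MP_1b807b_an.U.MainU

/-!
An explicit upper bound for the first Robin eigenvalue of an arbitrary domain in terms of its volume,
in every dimension and for every negative boundary parameter, and the two-term asymptotics it gives.
-/

set_option autoImplicit false

namespace Pool.Agent.H.MP_1b807b_an.Old.UniversalBound

open MeasureTheory Metric Set
open Pool.Agent.RG Pool.Agent.RU

/-- Let `n ≥ 2`.
(1) For all `β, μ > 0` every domain `D` in `ℝⁿ` with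
`|D| ≤ ∫_{|p|<β} (n / (β² + μ - |p|²))ⁿ dp` or
`|D| ≤ ∫_{|p|<β} ((n-1)/μ)^{n-1} / (β² - |p|² + μ/(n-1)) dp` has `λ₁(D; -β) ≤ -β² - μ`.
(2) For `A, ε > 0` and all large `β`, with
`κ = (n-1) (n |S^{n-1}| β^{n-2} log β / (2 (n-1) A))^{1/(n-1)}`, every domain of volume `A` has
`λ₁(D; -β) ≤ -β² - (1-ε) κ` and some spherical shell of volume `A` has
`λ₁ ≥ -β² - (1+ε) 2^{1/(n-1)} κ`. -/
theorem result (n : ℕ) (hn : 2 ≤ n) :
    (∀ β μ : ℝ, 0 < β → 0 < μ → ∀ D : Domain n,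
      (volume.real D.carrier ≤ ∫ p in ball (0 : E n) β, (n / (β ^ 2 + μ - ‖p‖ ^ 2)) ^ n ∨
        volume.real D.carrier ≤ ∫ p in ball (0 : E n) β,
          ((n - 1 : ℝ) / μ) ^ (n - 1) / (β ^ 2 - ‖p‖ ^ 2 + μ / (n - 1))) →
      D.robin (-β) ≤ ((-β ^ 2 - μ : ℝ) : EReal)) ∧
    ∀ A ε : ℝ, 0 < A → 0 < ε → ∃ β₀ : ℝ, ∀ β ≥ β₀,
      (∀ D : Domain n, volume.real D.carrier = A →
        D.robin (-β) ≤ ((-β ^ 2 - (1 - ε) * kap n A β : ℝ) : EReal)) ∧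
      ∃ D : Domain n, (∃ r₁ r₂ : ℝ, 0 < r₁ ∧ r₁ < r₂ ∧
          D.carrier = {x : E n | r₁ < ‖x‖ ∧ ‖x‖ < r₂}) ∧ volume.real D.carrier = A ∧
        ((-β ^ 2 - (1 + ε) * (2 : ℝ) ^ (1 / ((n : ℝ) - 1)) * kap n A β : ℝ) : EReal) ≤
          D.robin (-β) :=
  ⟨fun _ _ hβ hμ D h => h.elim (boundA hn hβ hμ D) (boundB hn hβ hμ D),
    fun _ _ hA hε => asym hn hA hε⟩

end Pool.Agent.H.MP_1b807b_an.Old.UniversalBound
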